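import Pool.Agent.R482.ST.Star
import Pool.Agent.R559.NP.Near

/-!
# Sets of integers with few elements and windows around starshaped functions; limits over the exponent
-/

set_option autoImplicit false

namespace Pool.Agent.Zk37.OP

open Filter Topology
open Pool.Agent.R482.ST (Starshaped Conv win_nat)

/-- windows for sets of integers with at most `C B ^ ε` elements up to `B` -/
theorem win_int (P : ℤ → Prop) {f : ℕ → ℝ → ℝ} {a s τ θ : ℝ} (hf : Starshaped a f) (hτ : 0 ≤ τ)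
    (hv : Conv a f τ) (hs : 0 ≤ s) (hθ : θ < 1)
    (hP : ∃ C : ℝ, ∀ B : ℕ, 1 ≤ B → ({t : ℤ | |t| ≤ B ∧ P t}.ncard : ℝ) ≤ C * (B : ℝ) ^ s) :
    ∃ E : Set ℝ, dimH E ≤ ENNReal.ofReal ((s + τ) / (1 - θ)) ∧ ∀ x : ℝ, a < x → x ∉ E → ∀ c : ℝ,
      ∃ n₀ : ℕ, ∀ n : ℕ, n₀ ≤ n → ∀ m : ℤ, |(|m| : ℝ) - f n x| ≤ c * (f n x) ^ θ → ¬ P m := by
  classical
  obtain ⟨C, hC⟩ := hP
  obtain ⟨E, hE, h⟩ := win_nat {m : ℕ | P m ∨ P (-m)} hf hτ hv hs hθ (fun ε hε => by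
    refine ⟨|C|, fun X hX => ?_⟩
    have hX1 : (1 : ℝ) ≤ X := by exact_mod_cast hX
    have h1 : (((Finset.Ioc 0 X).filter (fun t => t ∈ {m : ℕ | P m ∨ P (-m)})).card : ℝ) ≤
        ({t : ℤ | |t| ≤ X ∧ P t}.ncard : ℝ) := by
      have hfin : {t : ℤ | |t| ≤ X ∧ P t}.Finite := by
        refine (Finset.finite_toSet (Finset.Icc (-(X : ℤ)) X)).subset fun t ht => ?_
        rw [Finset.mem_coe, Finset.mem_Icc]
        exact abs_le.mp ht.1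
      rw [← Set.ncard_coe_finset]
      refine Nat.cast_le.mpr (Set.ncard_le_ncard_of_injOn (fun m : ℕ => if P m then (m : ℤ) else -(m : ℤ))
        (fun m hm => ?_) (fun m hm m' hm' he => ?_) hfin)
      · rw [Finset.mem_coe, Finset.mem_filter, Finset.mem_Ioc] at hm
        obtain ⟨⟨h1, h2⟩, h3⟩ := hm
        by_cases hp : P m
        · simp only [hp, if_true]
          refine ⟨?_, hp⟩
          rw [abs_of_nonneg (by positivity)]
          exact_mod_cast h2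
        · simp only [hp, if_false]
          refine ⟨?_, ?_⟩
          · rw [abs_neg, abs_of_nonneg (by positivity)]
            exact_mod_cast h2
          · rcases h3 with h3 | h3
            · exact absurd h3 hp
            · exact h3
      · have e : ∀ k : ℕ, |(if P k then (k : ℤ) else -(k : ℤ))| = k := by
          intro k
          split_ifs
          · exact abs_of_nonneg (by positivity)
          · rw [abs_neg]; exact abs_of_nonneg (by positivity)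
        have h4 := congrArg (fun z : ℤ => |z|) he
        simp only [e] at h4
        exact_mod_cast h4
    have h2 : (X : ℝ) ^ s ≤ (X : ℝ) ^ (s + ε) := Real.rpow_le_rpow_of_exponent_le hX1 (by linarith)
    have h3 : C * (X : ℝ) ^ s ≤ |C| * (X : ℝ) ^ (s + ε) :=
      calc C * (X : ℝ) ^ s ≤ |C| * (X : ℝ) ^ s :=
            mul_le_mul_of_nonneg_right (le_abs_self C) (by positivity)
        _ ≤ _ := mul_le_mul_of_nonneg_left h2 (abs_nonneg C)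
    have h5 := h1.trans ((hC X hX).trans h3)
    refine le_trans (le_of_eq ?_) h5
    congr!)
  refine ⟨E, hE, fun x hx hxE c => ?_⟩
  obtain ⟨n₀, hn₀⟩ := h x hx hxE c
  refine ⟨n₀, fun n hn m hm => ?_⟩
  have h1 := hn₀ n hn m.natAbs (by
    rw [Nat.cast_natAbs, Int.cast_abs]
    exact hm)
  intro hP
  apply h1.2
  show P _ ∨ P _
  rcases Int.natAbs_eq m with h2 | h2
  · left
    rw [← h2]
    exact hP
  · right
    rw [← h2]
    exact hP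

/-- the dimension of the intersection of exceptional sets with exponents `1 / (k + 1)` -/
theorem inf_dim {X : Type*} [EMetricSpace X] (E : ℕ → Set X) {b d : ℝ}
    (h : ∀ k : ℕ, dimH (E k) ≤ ENNReal.ofReal ((1 / ((k : ℝ) + 1) + b) / d)) :
    dimH (⋂ k, E k) ≤ ENNReal.ofReal (b / d) := by
  have h1 : Tendsto (fun k : ℕ => ENNReal.ofReal ((1 / ((k : ℝ) + 1) + b) / d)) atTop
      (𝓝 (ENNReal.ofReal ((0 + b) / d))) :=
    ENNReal.tendsto_ofReal (((tendsto_one_div_add_atTop_nhds_zero_nat (𝕜 := ℝ)).add_const b).div_const d)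
  rw [zero_add] at h1
  exact ge_of_tendsto' h1 fun k => (dimH_mono (Set.iInter_subset E k)).trans (h k)

/-- integers near a point, any map to a metric space -/
theorem near_int {X : Type} [MetricSpace X] (P : ℤ → Prop) {s τ : ℝ} (hs : 0 ≤ s) (hτ : 0 < τ)
    (hP : ∃ C : ℝ, ∀ B : ℕ, 1 ≤ B → ({t : ℤ | |t| ≤ B ∧ P t}.ncard : ℝ) ≤ C * (B : ℝ) ^ s) (φ : ℤ → X) :
    ∃ E : Set X, dimH E ≤ ENNReal.ofReal (s / τ) ∧ ∀ ξ : X, ξ ∉ E → ∀ A : ℝ,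
      {t : ℤ | dist (φ t) ξ ≤ A * (max 1 (|t| : ℝ)) ^ (-τ) ∧ P t}.Finite := by
  obtain ⟨C, hC⟩ := hP
  refine Pool.Agent.R559.NP.near_dim (T := ℤ) (X := X) (H := fun t => max 1 (|t| : ℝ))
    (fun t => le_max_left _ _) hs hτ (fun ε hε => ?_) φ
  refine ⟨|C|, fun B hB => ?_⟩
  have hB0 : 0 ≤ B := by linarith
  have hfl : 1 ≤ ⌊B⌋₊ := Nat.le_floor (by exact_mod_cast hB)
  have hfin : {t : ℤ | |t| ≤ (⌊B⌋₊ : ℤ) ∧ P t}.Finite := by
    refine (Finset.finite_toSet (Finset.Icc (-(⌊B⌋₊ : ℤ)) ⌊B⌋₊)).subset fun t ht => ?_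
    rw [Finset.mem_coe, Finset.mem_Icc]
    exact abs_le.mp ht.1
  have hsub : {t : ℤ | P t ∧ max 1 (|t| : ℝ) ≤ B} ⊆ {t : ℤ | |t| ≤ (⌊B⌋₊ : ℤ) ∧ P t} := by
    rintro t ⟨h1, h2⟩
    refine ⟨?_, h1⟩
    have h3 : ((t.natAbs : ℕ) : ℝ) ≤ B := by
      rw [Nat.cast_natAbs, Int.cast_abs]
      exact (le_max_right _ _).trans h2
    have h4 : t.natAbs ≤ ⌊B⌋₊ := Nat.le_floor h3
    rw [Int.abs_eq_natAbs]
    exact_mod_cast h4
  refine ⟨hfin.subset hsub, ?_⟩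
  have h1 : ((⌊B⌋₊ : ℕ) : ℝ) ≤ B := Nat.floor_le hB0
  have h1' : (1 : ℝ) ≤ ((⌊B⌋₊ : ℕ) : ℝ) := by exact_mod_cast hfl
  calc (({t : ℤ | P t ∧ max 1 (|t| : ℝ) ≤ B}.ncard : ℕ) : ℝ) ≤
        ({t : ℤ | |t| ≤ (⌊B⌋₊ : ℤ) ∧ P t}.ncard : ℝ) := by
        exact_mod_cast Set.ncard_le_ncard hsub hfin
    _ ≤ C * ((⌊B⌋₊ : ℕ) : ℝ) ^ s := hC _ hfl
    _ ≤ |C| * ((⌊B⌋₊ : ℕ) : ℝ) ^ s := mul_le_mul_of_nonneg_right (le_abs_self C) (by positivity)
    _ ≤ |C| * B ^ s := mul_le_mul_of_nonneg_left (Real.rpow_le_rpow (by positivity) h1 hs) (abs_nonneg C)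
    _ ≤ |C| * B ^ (s + ε) := mul_le_mul_of_nonneg_left
        (Real.rpow_le_rpow_of_exponent_le hB (by linarith)) (abs_nonneg C)

/-- the height of a rational number -/
noncomputable def hq (t : ℚ) : ℝ := max (|t.num| : ℝ) t.den

theorem one_le_hq (t : ℚ) : 1 ≤ hq t := le_max_of_le_right (by exact_mod_cast t.pos)

/-- rational numbers near a point, any map to a metric space -/
theorem near_rat {X : Type} [MetricSpace X] (P : ℚ → Prop) {s τ : ℝ} (hs : 0 ≤ s) (hτ : 0 < τ)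
    (hP : ∃ C : ℝ, ∀ B : ℕ, 1 ≤ B → ({t : ℚ | |t.num| ≤ B ∧ t.den ≤ B ∧ P t}.ncard : ℝ) ≤ C * (B : ℝ) ^ s)
    (φ : ℚ → X) :
    ∃ E : Set X, dimH E ≤ ENNReal.ofReal (s / τ) ∧ ∀ ξ : X, ξ ∉ E → ∀ A : ℝ,
      {t : ℚ | dist (φ t) ξ ≤ A * (hq t) ^ (-τ) ∧ P t}.Finite := by
  obtain ⟨C, hC⟩ := hP
  refine Pool.Agent.R559.NP.near_dim (T := ℚ) (X := X) (H := hq) one_le_hq hs hτ (fun ε hε => ?_) φ
  refine ⟨|C|, fun B hB => ?_⟩
  have hB0 : 0 ≤ B := by linarith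
  have hfl : 1 ≤ ⌊B⌋₊ := Nat.le_floor (by exact_mod_cast hB)
  have hfin : {t : ℚ | |t.num| ≤ (⌊B⌋₊ : ℤ) ∧ t.den ≤ ⌊B⌋₊ ∧ P t}.Finite := by
    have hinj : Function.Injective (fun t : ℚ => ((t.num, (t.den : ℤ)) : ℤ × ℤ)) := by
      intro a b hab
      rw [Prod.mk.injEq] at hab
      exact Rat.ext hab.1 (by exact_mod_cast hab.2)
    refine Set.Finite.of_finite_image
      (f := fun t : ℚ => ((t.num, (t.den : ℤ)) : ℤ × ℤ)) ?_ hinj.injOn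
    refine (Finset.finite_toSet (Finset.Icc (-(⌊B⌋₊ : ℤ)) ⌊B⌋₊ ×ˢ Finset.Icc (-(⌊B⌋₊ : ℤ)) ⌊B⌋₊)).subset ?_
    rintro _ ⟨t, ⟨h1, h2, -⟩, rfl⟩
    rw [Finset.mem_coe, Finset.mem_product, Finset.mem_Icc, Finset.mem_Icc]
    refine ⟨abs_le.mp h1, ?_, ?_⟩
    · have : (0 : ℤ) ≤ t.den := by positivity
      have h3 : (0 : ℤ) ≤ (⌊B⌋₊ : ℤ) := by positivity
      simp only
      linarith
    · show (t.den : ℤ) ≤ (⌊B⌋₊ : ℤ)
      exact_mod_cast h2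
  have hsub : {t : ℚ | P t ∧ hq t ≤ B} ⊆ {t : ℚ | |t.num| ≤ (⌊B⌋₊ : ℤ) ∧ t.den ≤ ⌊B⌋₊ ∧ P t} := by
    rintro t ⟨h1, h2⟩
    refine ⟨?_, ?_, h1⟩
    · have h3 : ((t.num.natAbs : ℕ) : ℝ) ≤ B := by
        rw [Nat.cast_natAbs, Int.cast_abs]
        exact (le_max_left _ _).trans h2
      have h4 : t.num.natAbs ≤ ⌊B⌋₊ := Nat.le_floor h3
      rw [Int.abs_eq_natAbs]
      exact_mod_cast h4
    · exact Nat.le_floor ((le_max_right _ _).trans h2)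
  refine ⟨hfin.subset hsub, ?_⟩
  have h1 : ((⌊B⌋₊ : ℕ) : ℝ) ≤ B := Nat.floor_le hB0
  have h1' : (1 : ℝ) ≤ ((⌊B⌋₊ : ℕ) : ℝ) := by exact_mod_cast hfl
  calc (({t : ℚ | P t ∧ hq t ≤ B}.ncard : ℕ) : ℝ) ≤
        ({t : ℚ | |t.num| ≤ (⌊B⌋₊ : ℤ) ∧ t.den ≤ ⌊B⌋₊ ∧ P t}.ncard : ℝ) := by
        exact_mod_cast Set.ncard_le_ncard hsub hfin
    _ ≤ C * ((⌊B⌋₊ : ℕ) : ℝ) ^ s := hC _ hfl
    _ ≤ |C| * ((⌊B⌋₊ : ℕ) : ℝ) ^ s := mul_le_mul_of_nonneg_right (le_abs_self C) (by positivity)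
    _ ≤ |C| * B ^ s := mul_le_mul_of_nonneg_left (Real.rpow_le_rpow (by positivity) h1 hs) (abs_nonneg C)
    _ ≤ |C| * B ^ (s + ε) := mul_le_mul_of_nonneg_left
        (Real.rpow_le_rpow_of_exponent_le hB (by linarith)) (abs_nonneg C)

end Pool.Agent.Zk37.OP
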